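import Pool.Agent.H18.XX.TB

/-!
# CLO: the answers of the instances of scale at most `r` are formulas
-/

set_option autoImplicit false

namespace Pool.Agent.H62.XX

open Finset Pool.Agent.H6.NB Pool.Agent.H70.OQ Pool.Agent.H70.EH Pool.Agent.H70.EI Pool.Agent.H78.XQ
open Pool.Agent.H66.IP (Local ins sp dm IsZ scl mBp m0p)
open Pool.Agent.H18.XX

private theorem bd_ge (r : ℕ) (hr : 20 ≤ r) : 2 ^ (r + 1) ≤ bd r := by
  unfold bd
  refine Nat.pow_le_pow_right (by norm_num) ?_
  have h1 : r ^ 2 - r = r * (r - 1) := by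
    rw [pow_two, Nat.mul_sub, Nat.mul_one]
  rw [h1]
  have h2 : r * 1 ≤ r * (r - 1) := Nat.mul_le_mul_left _ (by omega)
  omega

open Classical in
theorem pf_CLO (hLCL : Pool.Agent.H70.EI.T_LCL) (hCNJ : Pool.Agent.H70.EI.T_CNJ)
    (hCLB : Pool.Agent.H6.NB.T_CLB) (hCTN : T_CTN) : T_CLO := by
  intro X V E r O κ hO hr
  have hb := bd_ge r hr
  have hb1 : 2 ^ r ≤ bd r := (Nat.pow_le_pow_right (by norm_num) (Nat.le_succ r)).trans hb
  have hS1 : 1 ≤ bd r := Nat.one_le_two_pow.trans hb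
  have hS : 2 ≤ 2 ^ bd r := by
    calc 2 = 2 ^ 1 := by norm_num
      _ ≤ 2 ^ bd r := Nat.pow_le_pow_right (by norm_num) hS1
  have mono := (hCLB X (2 ^ bd r) hS).2.1
  set J : Finset {a // a ∈ E} := univ.filter fun i => scl (lx V) i.1 ≤ r with hJ
  have hJc : J.card ≤ 2 ^ bd r := by
    have e1 : J.card ≤ (E.filter fun a => scl (lx V) a ≤ r).card := by
      refine Finset.card_le_card_of_injOn (fun i => i.1) (fun i hi => ?_)
        (fun i _ j _ hij => Subtype.ext hij)
      exact Finset.mem_coe.2 (Finset.mem_filter.2 ⟨i.2, (Finset.mem_filter.1 hi).2⟩)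
    have e2 := (hCTN V E).1 r
    have e3 : (2 : ℕ) ^ r ≤ 2 ^ bd r :=
      Nat.pow_le_pow_right (by norm_num) ((Nat.lt_two_pow_self).le.trans hb1)
    omega
  have hone : ∀ i ∈ J, Cl X (2 ^ bd r) r fun y => ax V (O y) i.1 := by
    intro i hi
    obtain ⟨⟨j, x⟩, hjx⟩ := i
    have h1 : scl (lx V) (j, x) ≤ r := (Finset.mem_filter.1 hi).2
    have h2 : x.length + j + (x.length ^ (V j).c + (V j).c) + 20 ≤ r := h1
    have h3 := (V j).bound x.length
    have ht : (V j).M.time x.length + 1 ≤ bd r := by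
      have e1 : (V j).M.time x.length < 2 ^ (Nat.log 2 ((V j).M.time x.length) + 1) :=
        Nat.lt_pow_succ_log_self (by norm_num) _
      have e2 : Nat.log 2 ((V j).M.time x.length) + 1 ≤ r := by omega
      have e3 : 2 ^ (Nat.log 2 ((V j).M.time x.length) + 1) ≤ 2 ^ r :=
        Nat.pow_le_pow_right (by norm_num) e2
      omega
    have h4 := hLCL X (2 ^ bd r) ((V j).M.time x.length) ((V j).M.alt x.length)
      ((V j).M.tree x) O hS (Nat.pow_le_pow_right (by norm_num) ht) hO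
      (fun ws hl hws => ⟨(V j).M.depth_le x ws hl hws, (V j).M.short x ws hl hws⟩)
    exact mono _ _ _ (by omega) h4
  have h5 := hCNJ X {a // a ∈ E} (2 ^ bd r) r J (fun i y => ax V (O y) i.1) κ hS hJc hone
  refine Eq.mpr (congrArg (Cl _ _ _) (funext fun y => decide_eq_decide.2 ?_)) h5
  constructor
  · intro h i hi
    exact h i (Finset.mem_filter.1 hi).2
  · intro h i hi
    exact h i (Finset.mem_filter.2 ⟨Finset.mem_univ _, hi⟩)

end Pool.Agent.H62.XX
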